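import Pool.Agent.MP_961ca8_al.H18.Iface

/-!
Module D: traces on `F_p[[s]][w]` and the unit `(1+s)^α`.
-/

namespace Pool.Agent.MP_961ca8_al.H20

open Finset

/-- The coefficients in the residue class `i` modulo `q`. -/
noncomputable def sec {R : Type} [CommRing R] (q i : ℕ) : PowerSeries R →ₗ[ℕ] PowerSeries R where
  toFun x := PowerSeries.mk fun k => PowerSeries.coeff (q * k + i) x
  map_add' x y := by
    ext k
    simp
  map_smul' c x := by
    ext k
    simp only [map_nsmul, PowerSeries.coeff_mk, RingHom.id_apply]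

theorem coeff_sec {R : Type} [CommRing R] (q i k : ℕ) (x : PowerSeries R) :
    PowerSeries.coeff k (sec q i x) = PowerSeries.coeff (q * k + i) x :=
  PowerSeries.coeff_mk k fun k => PowerSeries.coeff (q * k + i) x

theorem sec_expand {R : Type} [CommRing R] {q i : ℕ} (hq : q ≠ 0) (hi : i < q)
    (r x : PowerSeries R) : sec q i (PowerSeries.expand q hq r * x) = r * sec q i x := by
  ext k
  rw [coeff_sec, PowerSeries.coeff_mul, PowerSeries.coeff_mul]
  symm
  refine Finset.sum_of_injOn (fun a : ℕ × ℕ => (q * a.1, q * a.2 + i)) ?_ ?_ ?_ ?_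
  · rintro ⟨a, b⟩ - ⟨c, d⟩ - h
    simp only [Prod.mk.injEq, Nat.add_right_cancel_iff] at h
    exact Prod.ext (Nat.eq_of_mul_eq_mul_left (Nat.pos_of_ne_zero hq) h.1)
      (Nat.eq_of_mul_eq_mul_left (Nat.pos_of_ne_zero hq) h.2)
  · rintro ⟨a, b⟩ h
    rw [mem_coe, HasAntidiagonal.mem_antidiagonal] at h ⊢
    simp only at h ⊢
    rw [← h]
    ring
  · rintro ⟨a, b⟩ h h'
    rw [HasAntidiagonal.mem_antidiagonal] at h
    simp only at h
    by_cases hd : q ∣ a
    · obtain ⟨c, rfl⟩ := hd
      have hc : c ≤ k := by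
        by_contra hc
        have := Nat.mul_le_mul_left q (Nat.succ_le_of_lt (not_le.1 hc))
        rw [Nat.mul_succ] at this
        omega
      obtain ⟨d, rfl⟩ := Nat.exists_eq_add_of_le hc
      refine (h' ⟨(c, d), by simp, ?_⟩).elim
      rw [mul_add] at h
      exact Prod.ext rfl (by simp only; omega)
    · rw [PowerSeries.coeff_expand_of_not_dvd _ _ _ hd, zero_mul]
  · rintro ⟨a, b⟩ -
    simp only [PowerSeries.coeff_expand_mul, coeff_sec]

theorem pow_eq_expand {p : ℕ} [hp : Fact p.Prime] (e : ℕ) (r : PowerSeries (ZMod p)) :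
    r ^ p ^ e = PowerSeries.expand (p ^ e) (pow_ne_zero e hp.out.ne_zero) r := by
  have : ExpChar (ZMod p) p := ExpChar.prime hp.out
  have h := MvPowerSeries.map_iterateFrobenius_expand p hp.out.ne_zero r e
  have h1 : iterateFrobenius (ZMod p) p e = RingHom.id _ :=
    RingHom.ext fun x => ZMod.pow_card_pow x
  rw [h1, MvPowerSeries.map_id] at h
  exact h.symm

/-- The trace on the polynomial ring built from an additive map on the coefficients. -/
noncomputable def tr {O : Type} [CommRing O] (q : ℕ) (Φ : O →ₗ[ℕ] O) :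
    Polynomial O →ₗ[ℕ] Polynomial O :=
  Polynomial.lsum fun i => if i % q = q - 1 then
    ((Polynomial.monomial (i / q)).restrictScalars ℕ) ∘ₗ Φ else 0

theorem tr_monomial {O : Type} [CommRing O] (q : ℕ) (Φ : O →ₗ[ℕ] O) (i : ℕ) (a : O) :
    tr q Φ (Polynomial.monomial i a) =
      if i % q = q - 1 then Polynomial.monomial (i / q) (Φ a) else 0 := by
  rw [tr, Polynomial.lsum_apply, Polynomial.sum_monomial_index (n := i) a _ (LinearMap.map_zero _)]
  by_cases h : i % q = q - 1
  · rw [if_pos h, if_pos h]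
    rfl
  · rw [if_neg h, if_neg h]
    rfl

theorem tr_coeff {O : Type} [CommRing O] {q : ℕ} (hq : 0 < q) (Φ : O →ₗ[ℕ] O)
    (t : Polynomial O) : (tr q Φ t).coeff 0 = Φ (t.coeff (q - 1)) := by
  induction t using Polynomial.induction_on' with
  | add a b ha hb => simp only [map_add, Polynomial.coeff_add, ha, hb]
  | monomial i a =>
    rw [tr_monomial, Polynomial.coeff_monomial]
    by_cases h : i = q - 1
    · have h1 : i < q := by omega
      rw [if_pos h, if_pos (by rw [Nat.mod_eq_of_lt h1, h]), Nat.div_eq_of_lt h1,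
        Polynomial.coeff_monomial_same]
    · rw [if_neg h, map_zero]
      by_cases h2 : i % q = q - 1
      · rw [if_pos h2, Polynomial.coeff_monomial, if_neg]
        intro h3
        have := Nat.div_add_mod i q
        rw [h3, h2] at this
        omega
      · rw [if_neg h2, Polynomial.coeff_zero]

theorem trace : H18.TraceStmt := by
  intro p hp c hc
  obtain ⟨l, hl⟩ : ∃ l, c.coeff l ≠ 0 := ⟨_, Polynomial.leadingCoeff_ne_zero.2 hc⟩
  obtain ⟨i, hi⟩ : ∃ i, PowerSeries.coeff i (c.coeff l) ≠ 0 := by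
    by_contra h
    exact hl (PowerSeries.ext fun i => by simpa using not_exists.1 h i)
  refine ⟨l, l + i, fun e he => ?_⟩
  have h1 : e < p ^ e := Nat.lt_pow_self hp.out.one_lt
  have hq : 0 < p ^ e := by omega
  refine ⟨(tr (p ^ e) (sec (p ^ e) i)).toAddMonoidHom, fun r x => ?_, ?_⟩
  · simp only [LinearMap.toAddMonoidHom_coe]
    have : CharP (PowerSeries (ZMod p)) p :=
      charP_of_injective_ringHom (PowerSeries.C_injective (R := ZMod p)) p
    induction r using Polynomial.induction_on' with
    | add a b ha hb => rw [add_pow_char_pow, add_mul, map_add, ha, hb, add_mul]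
    | monomial j a =>
      induction x using Polynomial.induction_on' with
      | add a b ha hb => rw [mul_add, map_add, ha, hb, map_add, mul_add]
      | monomial k b =>
        rw [Polynomial.monomial_pow, Polynomial.monomial_mul_monomial, tr_monomial, tr_monomial,
          add_comm (j * p ^ e), Nat.add_mul_mod_self_right, Nat.add_mul_div_right _ _ hq,
          pow_eq_expand, sec_expand _ (by omega)]
        by_cases h : k % p ^ e = p ^ e - 1
        · rw [if_pos h, if_pos h, Polynomial.monomial_mul_monomial, add_comm]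
        · rw [if_neg h, if_neg h, mul_zero]
  · have h2 : p ^ e - 1 = l + (p ^ e - 1 - l) := by omega
    rw [LinearMap.toAddMonoidHom_coe, tr_coeff hq, ← PowerSeries.coeff_zero_eq_constantCoeff_apply,
      coeff_sec]
    have h3 := Polynomial.coeff_X_pow_mul c (p ^ e - 1 - l) l
    rw [← h2] at h3
    rw [h3]
    simpa using hi

/-- The exponents approximating the Liouville number. -/
def ex (p : ℕ) : ℕ → ℕ
  | 0 => 1
  | r + 1 => ex p r + p ^ ((r + 1) * ex p r)

theorem ex_ge {p : ℕ} (hp : 1 < p) (r : ℕ) : r + 1 ≤ ex p r := by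
  induction r with
  | zero => exact le_rfl
  | succ r ih =>
    have : 0 < p ^ ((r + 1) * ex p r) := pow_pos (by omega) _
    rw [ex]
    omega

theorem ex_mono (p : ℕ) : Monotone (ex p) :=
  monotone_nat_of_le_succ fun r => by
    rw [ex]
    exact Nat.le_add_right _ _

theorem ex_dvd {p : ℕ} [hp : Fact p.Prime] {r r' : ℕ} (h : r ≤ r') :
    (PowerSeries.X : PowerSeries (ZMod p)) ^ p ^ ((r + 1) * ex p r) ∣
      (1 + PowerSeries.X) ^ ex p r' - (1 + PowerSeries.X) ^ ex p r := by
  have : CharP (PowerSeries (ZMod p)) p :=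
    charP_of_injective_ringHom (PowerSeries.C_injective (R := ZMod p)) p
  induction r', h using Nat.le_induction with
  | base => simp
  | succ t ht ih =>
    have h1 : (PowerSeries.X : PowerSeries (ZMod p)) ^ p ^ ((r + 1) * ex p r) ∣
        PowerSeries.X ^ p ^ ((t + 1) * ex p t) :=
      pow_dvd_pow _ (Nat.pow_le_pow_right hp.out.pos
        (Nat.mul_le_mul (by omega) (ex_mono p ht)))
    rw [ex, pow_add, add_pow_char_pow, one_pow, mul_add, mul_one, add_sub_right_comm]
    exact ih.add (h1.mul_left _)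

theorem ex_lt {p : ℕ} (hp : 1 < p) (r : ℕ) : (r + 1) * ex p r < p ^ ((r + 1) * ex p r) :=
  Nat.lt_pow_self hp

theorem coeff_one_add {R : Type} [CommRing R] (n k : ℕ) :
    PowerSeries.coeff k ((1 + PowerSeries.X : PowerSeries R) ^ n) = (n.choose k : R) := by
  rw [← Polynomial.coeff_one_add_X_pow R n k, ← Polynomial.coeff_coe]
  simp

theorem mu : H18.MuStmt := by
  intro p hp
  have h1 := hp.out.one_lt
  let μ : PowerSeries (ZMod p) :=
    PowerSeries.mk fun k => PowerSeries.coeff k ((1 + PowerSeries.X) ^ ex p k)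
  have h0 : PowerSeries.constantCoeff μ = 1 := by
    rw [← PowerSeries.coeff_zero_eq_constantCoeff_apply, PowerSeries.coeff_mk, coeff_one_add]
    simp
  have hd : ∀ r, (PowerSeries.X : PowerSeries (ZMod p)) ^ p ^ ((r + 1) * ex p r) ∣
      μ - (1 + PowerSeries.X) ^ ex p r := by
    intro r
    refine PowerSeries.X_pow_dvd_iff.2 fun k hk => ?_
    rw [map_sub, PowerSeries.coeff_mk, ← map_sub]
    rcases le_total r k with h | h
    · exact PowerSeries.X_pow_dvd_iff.1 (ex_dvd h) k hk
    · have h2 := ex_lt h1 k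
      have h3 := Nat.mul_le_mul_left (k + 1) (ex_ge h1 k)
      have h4 : k < p ^ ((k + 1) * ex p k) := by nlinarith
      rw [← neg_sub, map_neg, PowerSeries.X_pow_dvd_iff.1 (ex_dvd h) k h4, neg_zero]
  have key : ∀ i i' b : ℕ, (1 + PowerSeries.X) ^ i * μ ^ b = (1 + PowerSeries.X) ^ i' →
      i + b * ex p (i + b + i') ≤ i' := by
    intro i i' b h
    set A := ex p (i + b + i') with hA
    have h2 := ex_lt h1 (i + b + i')
    have h3 := ex_ge h1 (i + b + i')
    rw [← hA] at h2 h3
    have h4 := ((hd (i + b + i')).trans (sub_dvd_pow_sub_pow _ _ b)).mul_left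
      ((1 + PowerSeries.X) ^ i)
    rw [← hA, mul_sub, h, ← pow_mul, ← pow_add] at h4
    have h5 := PowerSeries.X_pow_dvd_iff.1 h4 (i + A * b) (by nlinarith)
    rw [map_sub, coeff_one_add, coeff_one_add, Nat.choose_self, Nat.cast_one] at h5
    by_contra h6
    rw [Nat.choose_eq_zero_of_lt (by rw [mul_comm]; omega)] at h5
    simp at h5
  have key2 : ∀ i j i' j' : ℕ, j' ≤ j →
      (1 + PowerSeries.X) ^ i * μ ^ j = (1 + PowerSeries.X) ^ i' * μ ^ j' → j = j' ∧ i ≤ i' := by
    intro i j i' j' hj h
    obtain ⟨b, rfl⟩ := Nat.exists_eq_add_of_le hj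
    have hμ : μ ≠ 0 := fun h => by simp [h] at h0
    rw [add_comm j', pow_add, ← mul_assoc] at h
    have h2 := key i i' b (mul_right_cancel₀ (pow_ne_zero _ hμ) h)
    have h3 := ex_ge h1 (i + b + i')
    refine ⟨?_, by omega⟩
    rcases Nat.eq_zero_or_pos b with rfl | hb
    · rfl
    · have := Nat.mul_le_mul_right (ex p (i + b + i')) hb
      omega
  refine ⟨μ, h0, fun C => ⟨ex p C, _, by have := ex_ge h1 C; omega, ?_, hd C⟩, ?_⟩
  · have := ex_lt h1 C
    nlinarith
  · intro i j i' j' h
    have h2 : j = j' := by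
      rcases le_total j' j with hj | hj
      · exact (key2 i j i' j' hj h).1
      · exact (key2 i' j' i j hj h.symm).1.symm
    subst h2
    exact ⟨le_antisymm (key2 i j i' j le_rfl h).2 (key2 i' j i j le_rfl h.symm).2, rfl⟩

end Pool.Agent.MP_961ca8_al.H20
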